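import Pool.Agent.W856.SV.Stms

/-!
SV-DOM1, SV-DOM2 and SV-SB of helper856's project on MP_b26df8_pr: domination of marginals by
Lebesgue measure.
-/

set_option autoImplicit false

open MeasureTheory Matrix Set
open scoped ENNReal

namespace Pool.Agent.W63.SVD

open Pool.Agent.W856.SV

theorem meas_dot {ι : Type} [Fintype ι] (v : ι → ℝ) : Measurable fun a : ι → ℝ => v ⬝ᵥ a := by
  unfold dotProduct
  fun_prop

theorem meas_dots {ι κ : Type} [Fintype ι] (a : κ → ι → ℝ) :
    Measurable fun (x : ι → ℝ) (k : κ) => a k ⬝ᵥ x :=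
  measurable_pi_lambda _ fun k => meas_dot (a k)

theorem prob_Pr {μ : Measure ℝ} {K : ℝ} (h : Nice μ K) (ι : Type) [Fintype ι] :
    IsProbabilityMeasure (Pr μ ι) := by
  have := h.prob
  unfold Pr
  infer_instance

theorem t_DOM1 (h1 : S_F1) (h3 : S_F3) : S_DOM1 := by
  intro μ K hμ
  obtain ⟨C, hC, h⟩ := h3 μ K hμ
  have hprob := hμ.prob
  refine ⟨C, hC, ?_⟩
  intro ι _ a ha hai
  have := prob_Pr hμ ι
  have hball : ∀ (z : Fin 3 → ℝ) (r : ℝ), 0 < r →
      (Pr μ ι).map (fun x k => a k ⬝ᵥ x) (Metric.closedBall z r) ≤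
        ENNReal.ofReal C * volume (Metric.closedBall z r) := by
    intro z r hr
    rw [Measure.map_apply (meas_dots a) measurableSet_closedBall,
      Real.volume_pi_closedBall z hr.le]
    have e1 := h1 μ hprob ι a (fun k => - z k) r hr
    have e2 := h ι a ha hai
    have e3 : (fun x k => a k ⬝ᵥ x) ⁻¹' Metric.closedBall z r ⊆
        {x | ∀ k, |a k ⬝ᵥ x + - z k| ≤ r} := by
      intro x hx k
      have hx' : dist (fun k => a k ⬝ᵥ x) z ≤ r := hx
      have := (dist_pi_le_iff hr.le).1 hx' k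
      rw [Real.dist_eq] at this
      rwa [← sub_eq_add_neg]
    calc _ ≤ _ := measure_mono e3
      _ ≤ _ := e1
      _ ≤ ENNReal.ofReal (r ^ 3) * ENNReal.ofReal C := mul_le_mul_right e2 _
      _ ≤ _ := by
        rw [← ENNReal.ofReal_mul (by positivity), ← ENNReal.ofReal_mul hC.le]
        refine ENNReal.ofReal_le_ofReal ?_
        rw [Fintype.card_fin]
        have : 0 ≤ C * r ^ 3 := by positivity
        nlinarith
  refine Measure.le_iff.2 fun s hs => ?_
  rw [Measure.smul_apply, smul_eq_mul]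
  have hC' : ENNReal.ofReal C ≠ 0 := by simpa using hC
  by_cases htop : (volume s : ℝ≥0∞) = ⊤
  · rw [htop, ENNReal.mul_top hC']
    exact le_top
  refine ENNReal.le_of_forall_pos_le_add fun ε hε _ => ?_
  have hε' : (ε : ℝ≥0∞) / ENNReal.ofReal C ≠ 0 :=
    (ENNReal.div_pos (by simpa using hε.ne') ENNReal.ofReal_ne_top).ne'
  obtain ⟨t, r, htc, hts, hr, hcov, hsum⟩ := Besicovitch.exists_closedBall_covering_tsum_measure_le
    (volume : Measure (Fin 3 → ℝ)) hε' (fun _ => Ioi 0) s (fun x _ δ hδ => by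
      rw [inter_eq_right.2 Ioo_subset_Ioi_self]
      exact nonempty_Ioo.2 hδ)
  have : Countable t := htc.to_subtype
  calc (Pr μ ι).map (fun x k => a k ⬝ᵥ x) s ≤
      (Pr μ ι).map (fun x k => a k ⬝ᵥ x) (⋃ x ∈ t, Metric.closedBall x (r x)) :=
        measure_mono hcov
    _ ≤ ∑' x : t, (Pr μ ι).map (fun x k => a k ⬝ᵥ x) (Metric.closedBall x (r x)) := by
        rw [biUnion_eq_iUnion]
        exact measure_iUnion_le _
    _ ≤ ∑' x : t, ENNReal.ofReal C * volume (Metric.closedBall (x : Fin 3 → ℝ) (r x)) :=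
        ENNReal.tsum_le_tsum fun x => hball x (r x) (hr x x.2)
    _ = ENNReal.ofReal C * ∑' x : t, volume (Metric.closedBall (x : Fin 3 → ℝ) (r x)) :=
        ENNReal.tsum_mul_left
    _ ≤ ENNReal.ofReal C * (volume s + ε / ENNReal.ofReal C) := mul_le_mul_right hsum _
    _ = _ := by rw [mul_add, ENNReal.mul_div_cancel hC' ENNReal.ofReal_ne_top]

/-- probabilities of boxes -/
theorem box_le {μ : Measure ℝ} {n : ℕ} {C : ℝ} (hD : Dom μ n C) {ι : Type} [Fintype ι]
    {a : Fin n → ι → ℝ} (ha : ON a) (z dd : Fin n → ℝ) :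
    Pr μ ι {x | ∀ k, |a k ⬝ᵥ x + z k| ≤ dd k} ≤
      ENNReal.ofReal C * ∏ k, ENNReal.ofReal (2 * dd k) := by
  have h1 := hD ι a ha (Icc (fun k => - z k - dd k) (fun k => - z k + dd k))
  rw [Measure.map_apply (meas_dots a) measurableSet_Icc, Measure.smul_apply, smul_eq_mul,
    Real.volume_Icc_pi] at h1
  have h2 : ∀ k, - z k + dd k - (- z k - dd k) = 2 * dd k := fun k => by ring
  simp only [h2] at h1
  refine (measure_mono ?_).trans h1
  intro x hx
  refine ⟨fun k => ?_, fun k => ?_⟩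
  · have := (abs_le.1 (hx k)).1
    simp only
    linarith
  · have := (abs_le.1 (hx k)).2
    simp only
    linarith

theorem dom_zero {μ : Measure ℝ} {K : ℝ} (hμ : Nice μ K) : Dom μ 0 1 := by
  intro ι _ a _
  have := prob_Pr hμ ι
  refine Measure.le_iff.2 fun s hs => ?_
  rw [ENNReal.ofReal_one, one_smul]
  rcases s.eq_empty_or_nonempty with rfl | hne
  · simp
  · have hu : s = univ := Subsingleton.eq_univ_of_nonempty hne
    rw [hu, volume_pi, Measure.pi_empty_univ]
    have : IsProbabilityMeasure ((Pr μ ι).map (fun x k => a k ⬝ᵥ x)) :=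
      Measure.isProbabilityMeasure_map (meas_dots a).aemeasurable
    exact prob_le_one

theorem ofReal_mul3 {a b c : ℝ} (ha : 0 ≤ a) (hb : 0 ≤ b) :
    ENNReal.ofReal a * (ENNReal.ofReal b * ENNReal.ofReal c) = ENNReal.ofReal (a * (b * c)) := by
  rw [← ENNReal.ofReal_mul hb, ← ENNReal.ofReal_mul ha]

theorem t_SB (h1 : S_DOM1) (h2 : S_DOM2) (h3 : S_DOM3) : S_SB := by
  intro μ K hμ
  obtain ⟨C, hC, s3⟩ := h1 μ K hμ
  have hK := hμ.Kpos
  have s2 := h2 μ K hμ 2 C hC s3
  have s1 := h2 μ K hμ 1 (8 * C) (by positivity) s2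
  have d1 := h3 μ K hμ 0 1 (8 * (8 * C)) one_pos (by positivity) (dom_zero hμ) s1
  set C1 := 8 * (8 * C) + 2 * K * 1 with hC1
  have hC1p : 0 < C1 := by positivity
  have d2 := h3 μ K hμ 1 C1 (8 * C) hC1p (by positivity) d1 s2
  set C2 := 8 * C + 2 * K * C1 with hC2
  have hC2p : 0 < C2 := by positivity
  have d3 := h3 μ K hμ 2 C2 C hC2p hC d2 s3
  set C3 := C + 2 * K * C2 with hC3
  have hC3p : 0 < C3 := by positivity
  refine ⟨8 * (C1 + C2 + C3), by positivity, ?_, ?_, ?_⟩
  · intro ι _ v z d hv hd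
    set q := Real.sqrt (v ⬝ᵥ v) with hq
    have hq0 : 0 < q := Real.sqrt_pos.2 hv
    have hqq : q * q = v ⬝ᵥ v := Real.mul_self_sqrt hv.le
    have hon : ON (fun _ : Fin 1 => q⁻¹ • v) := by
      intro k l
      rw [Subsingleton.elim k l, if_pos rfl, smul_dotProduct, dotProduct_smul, smul_eq_mul,
        smul_eq_mul, ← hqq]
      field_simp
    have h4 := box_le d1 (ι := ι) hon (fun _ => q⁻¹ * z) (fun _ => d / q)
    rw [Fin.prod_univ_one, ← ENNReal.ofReal_mul hC1p.le] at h4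
    refine (measure_mono ?_).trans (h4.trans (ENNReal.ofReal_le_ofReal ?_))
    · intro x hx k
      have hx' : |v ⬝ᵥ x + z| ≤ d := hx
      rw [smul_dotProduct, smul_eq_mul, ← mul_add, abs_mul, abs_of_pos (inv_pos.2 hq0),
        inv_mul_le_iff₀ hq0, mul_div_cancel₀ _ hq0.ne']
      exact hx'
    · rw [mul_div_assoc]
      have : 0 ≤ d / q := by positivity
      have : 0 ≤ C2 * (d / q) := by positivity
      have : 0 ≤ C3 * (d / q) := by positivity
      have : 0 ≤ C1 * (d / q) := by positivity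
      nlinarith
  · intro ι _ f g z₁ z₂ d₁ d₂ hf hg hfg hd1 hd2
    have hgf : g ⬝ᵥ f = 0 := by rw [dotProduct_comm, hfg]
    have hon : ON ![f, g] := by
      intro k l
      fin_cases k <;> fin_cases l <;> simp [hf, hg, hfg, hgf]
    have h4 := box_le d2 hon ![z₁, z₂] ![d₁, d₂]
    rw [Fin.prod_univ_two] at h4
    simp only [cons_val_zero, cons_val_one] at h4
    rw [ofReal_mul3 hC2p.le (by positivity)] at h4
    refine (measure_mono ?_).trans (h4.trans (ENNReal.ofReal_le_ofReal ?_))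
    · rintro x ⟨hx1, hx2⟩ k
      fin_cases k
      · exact hx1
      · exact hx2
    · have : 0 ≤ C2 * (d₁ * d₂) := by positivity
      have : 0 ≤ C3 * (d₁ * d₂) := by positivity
      have : 0 ≤ C1 * (d₁ * d₂) := by positivity
      nlinarith
  · intro ι _ f g k z₁ z₂ z₃ d₁ d₂ d₃ hf hg hk hfg hfk hgk hd1 hd2 hd3
    have hgf : g ⬝ᵥ f = 0 := by rw [dotProduct_comm, hfg]
    have hkf : k ⬝ᵥ f = 0 := by rw [dotProduct_comm, hfk]
    have hkg : k ⬝ᵥ g = 0 := by rw [dotProduct_comm, hgk]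
    have hon : ON ![f, g, k] := by
      intro i l
      fin_cases i <;> fin_cases l <;> simp [hf, hg, hk, hfg, hgf, hfk, hkf, hgk, hkg]
    have h4 := box_le d3 hon ![z₁, z₂, z₃] ![d₁, d₂, d₃]
    rw [Fin.prod_univ_three] at h4
    simp only [cons_val_zero, cons_val_one, cons_val_two, tail_cons, head_cons] at h4
    rw [← ENNReal.ofReal_mul (by positivity), ← ENNReal.ofReal_mul (by positivity),
      ← ENNReal.ofReal_mul hC3p.le] at h4
    refine (measure_mono ?_).trans (h4.trans (ENNReal.ofReal_le_ofReal ?_))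
    · rintro x ⟨hx1, hx2, hx3⟩ i
      fin_cases i
      · exact hx1
      · exact hx2
      · exact hx3
    · have : 0 ≤ C2 * (d₁ * d₂ * d₃) := by positivity
      have : 0 ≤ C3 * (d₁ * d₂ * d₃) := by positivity
      have : 0 ≤ C1 * (d₁ * d₂ * d₃) := by positivity
      nlinarith

end Pool.Agent.W63.SVD
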