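import Pool.Agent.W63.SV.DOM

/-!
SV-DOM2 and SV-DOM3 of helper856's project on MP_b26df8_pr.
-/

set_option autoImplicit false

open MeasureTheory Matrix Set
open scoped ENNReal

namespace Pool.Agent.W63.SVD

open Pool.Agent.W856.SV

/-- the split of the first coordinate -/
theorem vol_split {d : ℕ} (S : Set ℝ) (Q : Set (Fin d → ℝ)) :
    volume {y : Fin (d + 1) → ℝ | y 0 ∈ S ∧ (fun k => y (Fin.succ k)) ∈ Q} =
      volume S * volume Q := by
  have h1 := (volume_preserving_piFinSuccAbove (fun _ : Fin (d + 1) => ℝ) 0).measure_preimage_equiv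
    (S ×ˢ Q)
  rw [Measure.volume_eq_prod, Measure.prod_prod] at h1
  rw [← h1]
  congr 1

theorem t_DOM2 (hm : S_MOM) : S_DOM2 := by
  intro μ K hμ d C hC hD ι _ a ha hai
  have := prob_Pr hμ ι
  have := prob_Pr hμ (Fin 2)
  have hprob := hμ.prob
  set s : ℝ := 1 / Real.sqrt 2 with hs
  have hss : s * s = 1 / 2 := by
    rw [hs, div_mul_div_comm, Real.mul_self_sqrt (by norm_num), mul_one]
  set w : Fin 2 → ℝ := fun _ => s with hw
  set b : Fin (d + 1) → ι ⊕ Fin 2 → ℝ :=
    Fin.cons (Sum.elim 0 w) (fun k => Sum.elim (a k) 0) with hb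
  have hb0 : ∀ x : ι ⊕ Fin 2 → ℝ, b 0 ⬝ᵥ x = w ⬝ᵥ (fun j => x (Sum.inr j)) := by
    intro x
    simp [hb, dotProduct, Fintype.sum_sum_type]
  have hbs : ∀ (k : Fin d) (x : ι ⊕ Fin 2 → ℝ), b (Fin.succ k) ⬝ᵥ x =
      a k ⬝ᵥ (fun j => x (Sum.inl j)) := by
    intro k x
    simp [hb, dotProduct, Fintype.sum_sum_type]
  have hww : w ⬝ᵥ w = 1 := by
    simp only [hw, dotProduct, Fin.sum_univ_two, hss]
    norm_num
  have hon : ON b := by
    intro k l
    refine Fin.cases ?_ (fun k => ?_) k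
    · rw [hb0]
      refine Fin.cases ?_ (fun l => ?_) l
      · rw [if_pos rfl]
        exact hww
      · rw [if_neg (Fin.succ_ne_zero l).symm]
        simp [hb, dotProduct]
    · rw [hbs]
      refine Fin.cases ?_ (fun l => ?_) l
      · rw [if_neg (Fin.succ_ne_zero k)]
        simp [hb, dotProduct]
      · have h1 := ha k l
        simp only [Fin.succ_inj]
        exact h1
  have hbi : ∀ i, ∑ k, b k i ^ 2 ≤ 1 / 2 := by
    rintro (i | j)
    · rw [Fin.sum_univ_succ]
      have h1 := hai i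
      simp only [hb, Fin.cons_zero, Fin.cons_succ, Sum.elim_inl, Pi.zero_apply]
      linarith
    · rw [Fin.sum_univ_succ]
      simp only [hb, hw, Fin.cons_zero, Fin.cons_succ, Sum.elim_inr, Pi.zero_apply]
      rw [pow_two, hss]
      simp
  have h1 := hD (ι ⊕ Fin 2) b hon hbi
  refine Measure.le_iff.2 fun Q hQ => ?_
  have hQ' : MeasurableSet {y : Fin (d + 1) → ℝ | y 0 ∈ Icc (-2 : ℝ) 2 ∧
      (fun k => y (Fin.succ k)) ∈ Q} := by
    refine (measurableSet_Icc.preimage (measurable_pi_apply 0)).inter ?_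
    exact hQ.preimage (measurable_pi_lambda _ fun k => measurable_pi_apply _)
  have h2 := Measure.le_iff.1 h1 _ hQ'
  rw [Measure.map_apply (meas_dots b) hQ', Measure.smul_apply, smul_eq_mul, vol_split,
    Real.volume_Icc] at h2
  set S : Set (ι → ℝ) := (fun x k => a k ⬝ᵥ x) ⁻¹' Q with hS
  set T : Set (Fin 2 → ℝ) := {y | w ⬝ᵥ y ∈ Icc (-2 : ℝ) 2} with hT
  have hSm : MeasurableSet S := hQ.preimage (meas_dots a)
  have hTm : MeasurableSet T := measurableSet_Icc.preimage (meas_dot w)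
  have h3 : Pr μ (ι ⊕ Fin 2) ((fun x k => b k ⬝ᵥ x) ⁻¹' {y : Fin (d + 1) → ℝ |
      y 0 ∈ Icc (-2 : ℝ) 2 ∧ (fun k => y (Fin.succ k)) ∈ Q}) = Pr μ ι S * Pr μ (Fin 2) T := by
    have h4 := (measurePreserving_sumPiEquivProdPi
      (fun _ : ι ⊕ Fin 2 => μ)).measure_preimage_equiv (S ×ˢ T)
    rw [Measure.prod_prod] at h4
    refine Eq.trans ?_ h4
    congr 1
    ext x
    simp only [mem_preimage, mem_ofPred_eq, hb0, hbs, mem_prod]
    exact and_comm
  rw [h3] at h2
  -- Chebyshev
  have h5 : 1 ≤ 2 * Pr μ (Fin 2) T := by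
    have h6 := hm μ K hμ (Fin 2) w
    have h7 := mul_meas_ge_le_lintegral (μ := Pr μ (Fin 2))
      (f := fun y => ENNReal.ofReal ((w ⬝ᵥ y) ^ 2)) ((meas_dot w).pow_const 2).ennreal_ofReal
      (ENNReal.ofReal 4)
    rw [h6, hww] at h7
    have h8 : ENNReal.ofReal 4 * Pr μ (Fin 2) Tᶜ ≤ ENNReal.ofReal 1 := by
      refine (mul_le_mul_right (measure_mono ?_) _).trans h7
      intro y hy
      refine ENNReal.ofReal_le_ofReal ?_
      have h9 : ¬ (w ⬝ᵥ y ∈ Icc (-2 : ℝ) 2) := hy
      by_contra hcon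
      refine h9 (abs_le.1 ?_)
      have : (w ⬝ᵥ y) ^ 2 < 2 ^ 2 := by
        have h := not_le.1 hcon
        have e : (2 : ℝ) ^ 2 = 4 := by norm_num
        rw [e]
        exact h
      exact (abs_lt_of_sq_lt_sq this (by norm_num)).le
    have h9 : Pr μ (Fin 2) T + Pr μ (Fin 2) Tᶜ = 1 := prob_add_prob_compl hTm
    have e4 : ENNReal.ofReal 4 = 4 := by norm_num
    rw [e4, ENNReal.ofReal_one] at h8
    by_contra hcon
    have h10 : 2 * Pr μ (Fin 2) T ≤ 1 := (not_le.1 hcon).le
    have h11 : (4 : ℝ≥0∞) ≤ 3 := by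
      calc (4 : ℝ≥0∞) = 4 * (Pr μ (Fin 2) T + Pr μ (Fin 2) Tᶜ) := by rw [h9, mul_one]
        _ = 2 * (2 * Pr μ (Fin 2) T) + 4 * Pr μ (Fin 2) Tᶜ := by ring
        _ ≤ 2 * 1 + 1 := add_le_add (mul_le_mul_right h10 _) h8
        _ = 3 := by norm_num
    norm_num at h11
  rw [Measure.map_apply (meas_dots a) hQ, Measure.smul_apply, smul_eq_mul]
  calc Pr μ ι S = Pr μ ι S * 1 := (mul_one _).symm
    _ ≤ Pr μ ι S * (2 * Pr μ (Fin 2) T) := mul_le_mul_right h5 _
    _ = 2 * (Pr μ ι S * Pr μ (Fin 2) T) := by ring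
    _ ≤ 2 * (ENNReal.ofReal C * (ENNReal.ofReal (2 - -2) * volume Q)) := mul_le_mul_right h2 _
    _ = _ := by
      have e1 : (2 : ℝ≥0∞) = ENNReal.ofReal 2 := by norm_num
      rw [e1, ← mul_assoc, ← mul_assoc, ← ENNReal.ofReal_mul (by norm_num),
        ← ENNReal.ofReal_mul (by positivity)]
      congr 2
      ring

/-- orthogonal matrices with a given first row -/
theorem exists_orth (n : ℕ) (b : Fin (n + 1) → ℝ) (hb : ∑ k, b k ^ 2 = 1) :
    ∃ U : Matrix (Fin (n + 1)) (Fin (n + 1)) ℝ, U * Uᵀ = 1 ∧ ∀ k, U 0 k = b k := by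
  classical
  set v : Fin (n + 1) → EuclideanSpace ℝ (Fin (n + 1)) := fun _ => WithLp.toLp 2 b with hv
  have hv1 : ‖(WithLp.toLp 2 b : EuclideanSpace ℝ (Fin (n + 1)))‖ = 1 := by
    rw [EuclideanSpace.norm_eq]
    simp only [Real.norm_eq_abs, sq_abs]
    rw [hb, Real.sqrt_one]
  have ho : Orthonormal ℝ (({0} : Set (Fin (n + 1))).domRestrict v) := by
    refine ⟨fun i => hv1, fun i j hij => ?_⟩
    exact absurd (Subsingleton.elim i j) hij
  obtain ⟨B, hB⟩ := Orthonormal.exists_orthonormalBasis_extension_of_card_eq (by simp) ho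
  refine ⟨Matrix.of fun i j => B i j, ?_, fun k => ?_⟩
  · ext i j
    rw [Matrix.mul_apply, Matrix.one_apply]
    have h1 := orthonormal_iff_ite.1 B.orthonormal i j
    rw [← h1, PiLp.inner_apply]
    refine Finset.sum_congr rfl fun l _ => ?_
    simp [Matrix.transpose_apply, mul_comm]
  · rw [Matrix.of_apply, hB 0 rfl]

theorem t_DOM3 (hr : S_RES) : S_DOM3 := by
  intro μ K hμ d C₁ C₂ hC₁ hC₂ hD1 hD2 ι _ a ha
  classical
  have := prob_Pr hμ ι
  have hprob := hμ.prob
  have hK := hμ.Kpos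
  by_cases hall : ∀ i, ∑ k, a k i ^ 2 ≤ 1 / 2
  · refine (hD2 ι a ha hall).trans ?_
    refine Measure.le_iff.2 fun s _ => ?_
    rw [Measure.smul_apply, Measure.smul_apply]
    refine mul_le_mul_left (ENNReal.ofReal_le_ofReal ?_) _
    have : 0 ≤ 2 * K * C₁ := by positivity
    linarith
  obtain ⟨i, hi⟩ := not_forall.1 hall
  rw [not_le] at hi
  set ρ : ℝ := Real.sqrt (∑ k, a k i ^ 2) with hρ
  have hρ2 : ρ ^ 2 = ∑ k, a k i ^ 2 := Real.sq_sqrt (Finset.sum_nonneg fun _ _ => sq_nonneg _)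
  have hρ0 : 1 / 2 < ρ := by
    refine lt_of_pow_lt_pow_left₀ 2 (Real.sqrt_nonneg _) ?_
    rw [hρ2]
    have e : (1 / 2 : ℝ) ^ 2 = 1 / 4 := by norm_num
    rw [e]
    linarith
  have hρpos : 0 < ρ := by linarith
  obtain ⟨U, hU, hU0⟩ := exists_orth d (fun k => a k i / ρ) (by
    simp only [div_pow]
    rw [← Finset.sum_div, ← hρ2, div_self (by positivity)])
  have hU' : Uᵀ * U = 1 := mul_eq_one_comm.1 hU
  set a' : Fin (d + 1) → ι → ℝ := fun m j => ∑ k, U m k * a k j with ha'
  have hdot : ∀ m x, a' m ⬝ᵥ x = ∑ k, U m k * (a k ⬝ᵥ x) := by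
    intro m x
    simp only [ha', dotProduct, Finset.sum_mul, Finset.mul_sum]
    rw [Finset.sum_comm]
    refine Finset.sum_congr rfl fun k _ => Finset.sum_congr rfl fun j _ => by ring
  have hdot' : ∀ k x, a k ⬝ᵥ x = ∑ m, U m k * (a' m ⬝ᵥ x) := by
    intro k x
    simp only [hdot, Finset.mul_sum]
    rw [Finset.sum_comm]
    have h1 : ∀ l, ∑ m, U m k * (U m l * (a l ⬝ᵥ x)) = (if k = l then 1 else 0) * (a l ⬝ᵥ x) := by
      intro l
      rw [← Matrix.one_apply, ← hU', Matrix.mul_apply, Finset.sum_mul]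
      refine Finset.sum_congr rfl fun m _ => ?_
      rw [Matrix.transpose_apply]
      ring
    simp only [h1]
    simp
  have hon' : ON a' := by
    intro m l
    rw [hdot]
    have h1 : ∀ k, a k ⬝ᵥ a' l = U l k := by
      intro k
      rw [dotProduct_comm, hdot]
      have h2 : ∀ q, a q ⬝ᵥ a k = if q = k then 1 else 0 := fun q => ha q k
      simp only [h2]
      simp
    simp only [h1]
    have h2 : ∑ k, U m k * U l k = (U * Uᵀ) m l := by
      rw [Matrix.mul_apply]
      rfl
    rw [h2, hU, Matrix.one_apply]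
  have ha0 : a' 0 i = ρ := by
    simp only [ha', hU0]
    have : ∀ k, a k i / ρ * a k i = a k i ^ 2 / ρ := fun k => by ring
    simp only [this]
    rw [← Finset.sum_div, ← hρ2, pow_two, mul_div_assoc, div_self hρpos.ne', mul_one]
  have has : ∀ m : Fin d, a' (Fin.succ m) i = 0 := by
    intro m
    have h1 : ∑ k, U (Fin.succ m) k * U 0 k = 0 := by
      have h2 : ∑ k, U (Fin.succ m) k * U 0 k = (U * Uᵀ) (Fin.succ m) 0 := by
        rw [Matrix.mul_apply]
        rfl
      rw [h2, hU, Matrix.one_apply, if_neg (Fin.succ_ne_zero m)]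
    have h3 : ∀ k, U (Fin.succ m) k * a k i = ρ * (U (Fin.succ m) k * U 0 k) := by
      intro k
      rw [hU0]
      field_simp
    simp only [ha', h3]
    rw [← Finset.mul_sum, h1, mul_zero]
  -- the law of the rotated vector
  have hlaw : (Pr μ ι).map (fun x m => a' m ⬝ᵥ x) ≤
      ENNReal.ofReal (2 * K * C₁) • (volume : Measure (Fin (d + 1) → ℝ)) := by
    refine Measure.le_iff.2 fun Q hQ => ?_
    set e := MeasurableEquiv.piFinSuccAbove (fun _ : Fin (d + 1) => ℝ) 0 with he
    set Qt : Set (ℝ × (Fin d → ℝ)) := e.symm ⁻¹' Q with hQt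
    have hQtm : MeasurableSet Qt := hQ.preimage e.symm.measurable
    have hQtv : volume Qt = volume Q :=
      (volume_preserving_piFinSuccAbove (fun _ : Fin (d + 1) => ℝ) 0).symm.measure_preimage_equiv Q
    set Y : (ι → ℝ) → Fin d → ℝ := fun x m => a' (Fin.succ m) ⬝ᵥ x with hY
    have hYm : Measurable Y := meas_dots _
    set g : (Fin d → ℝ) → ℝ≥0∞ := fun y => volume ((fun t => (t, y)) ⁻¹' Qt) with hg
    have hgm : Measurable g := measurable_measure_prodMk_right hQtm
    have hgint : ∫⁻ y, g y = volume Q := by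
      rw [← hQtv, Measure.volume_eq_prod, Measure.prod_apply_symm hQtm]
    -- resampling
    have h1 := hr μ hprob ι (fun k => k = i) (fun x => Q.indicator 1 (fun m => a' m ⬝ᵥ x))
      ((measurable_one.indicator hQ).comp (meas_dots a'))
    have h2 : (Pr μ ι).map (fun x m => a' m ⬝ᵥ x) Q =
        ∫⁻ x, Q.indicator 1 (fun m => a' m ⬝ᵥ x) ∂(Pr μ ι) := by
      rw [← lintegral_map (measurable_one.indicator hQ) (meas_dots a'),
        lintegral_indicator_one hQ]
    have h3 : ∀ x, ∫⁻ y, Q.indicator 1 (fun m => a' m ⬝ᵥ (fun k => if k = i then y k else x k))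
        ∂(Pr μ ι) ≤ ENNReal.ofReal K * (ENNReal.ofReal ρ⁻¹ * g (Y x)) := by
      intro x
      set s : ℝ := a' 0 ⬝ᵥ x - ρ * x i with hsdef
      have h4 : ∀ y : ι → ℝ, (fun m => a' m ⬝ᵥ (fun k => if k = i then y k else x k)) =
          e.symm (ρ * y i + s, Y x) := by
        intro y
        have h5 : ∀ m, a' m ⬝ᵥ (fun k => if k = i then y k else x k) =
            a' m ⬝ᵥ x + a' m i * (y i - x i) := by
          intro m
          simp only [dotProduct]
          rw [← Finset.add_sum_erase _ _ (Finset.mem_univ i),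
            ← Finset.add_sum_erase (f := fun j => a' m j * x j) _ (Finset.mem_univ i), if_pos rfl]
          have h6 : ∑ k ∈ Finset.univ.erase i, a' m k * (if k = i then y k else x k) =
              ∑ k ∈ Finset.univ.erase i, a' m k * x k :=
            Finset.sum_congr rfl fun k hk => by rw [if_neg (Finset.ne_of_mem_erase hk)]
          rw [h6]
          ring
        rw [← e.symm_apply_apply (fun m => a' m ⬝ᵥ (fun k => if k = i then y k else x k))]
        congr 1
        refine Prod.ext ?_ (funext fun m => ?_)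
        · change a' 0 ⬝ᵥ (fun k => if k = i then y k else x k) = ρ * y i + s
          rw [h5, ha0, hsdef]
          ring
        · change a' (Fin.succAbove 0 m) ⬝ᵥ (fun k => if k = i then y k else x k) = Y x m
          rw [h5, Fin.zero_succAbove, has, zero_mul, add_zero]
      have hms : MeasurableSet {t : ℝ | (ρ * t + s, Y x) ∈ Qt} :=
        hQtm.preimage (by fun_prop)
      have h5 : ∫⁻ y, Q.indicator 1 (fun m => a' m ⬝ᵥ (fun k => if k = i then y k else x k))
          ∂(Pr μ ι) = μ {t : ℝ | (ρ * t + s, Y x) ∈ Qt} := by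
        have h6 : ∀ y : ι → ℝ, Q.indicator (1 : (Fin (d + 1) → ℝ) → ℝ≥0∞)
            (fun m => a' m ⬝ᵥ (fun k => if k = i then y k else x k)) =
            {t : ℝ | (ρ * t + s, Y x) ∈ Qt}.indicator 1 (y i) := by
          intro y
          rw [h4]
          by_cases hc : e.symm (ρ * y i + s, Y x) ∈ Q
          · rw [indicator_of_mem hc, indicator_of_mem (show y i ∈ {t : ℝ |
              (ρ * t + s, Y x) ∈ Qt} from hc)]
            rfl
          · rw [indicator_of_notMem hc, indicator_of_notMem (show y i ∉ {t : ℝ |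
              (ρ * t + s, Y x) ∈ Qt} from hc)]
        simp only [h6]
        have h7 := (measurePreserving_eval (fun _ : ι => μ) i).lintegral_comp
          (measurable_one.indicator hms)
        rw [lintegral_indicator_one hms] at h7
        exact h7
      rw [h5]
      have h8 : μ {t : ℝ | (ρ * t + s, Y x) ∈ Qt} ≤
          ENNReal.ofReal K * volume {t : ℝ | (ρ * t + s, Y x) ∈ Qt} := hμ.dens _
      refine h8.trans (mul_le_mul_right (le_of_eq ?_) _)
      have h9 : {t : ℝ | (ρ * t + s, Y x) ∈ Qt} =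
          (fun t => ρ * t) ⁻¹' ((fun t => t + s) ⁻¹' ((fun t => (t, Y x)) ⁻¹' Qt)) := rfl
      rw [h9, Real.volume_preimage_mul_left hρpos.ne', measure_preimage_add_right,
        abs_of_pos (inv_pos.2 hρpos)]
    rw [h2, h1]
    calc _ ≤ ∫⁻ x, ENNReal.ofReal K * (ENNReal.ofReal ρ⁻¹ * g (Y x)) ∂(Pr μ ι) :=
          lintegral_mono h3
      _ = ENNReal.ofReal K * (ENNReal.ofReal ρ⁻¹ * ∫⁻ x, g (Y x) ∂(Pr μ ι)) := by
          rw [lintegral_const_mul' _ _ ENNReal.ofReal_ne_top,
            lintegral_const_mul' _ _ ENNReal.ofReal_ne_top]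
      _ = ENNReal.ofReal K * (ENNReal.ofReal ρ⁻¹ * ∫⁻ y, g y ∂((Pr μ ι).map Y)) := by
          rw [lintegral_map hgm hYm]
      _ ≤ ENNReal.ofReal K * (ENNReal.ofReal ρ⁻¹ * (ENNReal.ofReal C₁ * volume Q)) := by
          refine mul_le_mul_right (mul_le_mul_right ?_ _) _
          have h10 : (Pr μ ι).map Y ≤ ENNReal.ofReal C₁ • volume := by
            refine hD1 ι (fun m => a' (Fin.succ m)) ?_
            intro m l
            have := hon' (Fin.succ m) (Fin.succ l)
            simp only [Fin.succ_inj] at this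
            exact this
          refine (lintegral_mono' h10 le_rfl).trans ?_
          rw [lintegral_smul_measure, hgint, smul_eq_mul]
      _ ≤ _ := by
          rw [Measure.smul_apply, smul_eq_mul, ← mul_assoc, ← mul_assoc,
            ← ENNReal.ofReal_mul hK.le, ← ENNReal.ofReal_mul (by positivity)]
          refine mul_le_mul_left (ENNReal.ofReal_le_ofReal ?_) _
          have h11 : ρ⁻¹ ≤ 2 := by
            rw [inv_le_comm₀ hρpos (by norm_num)]
            linarith
          have h12 := mul_le_mul_of_nonneg_left h11 (mul_nonneg hK.le hC₁.le)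
          linarith
  -- rotate back
  have hmap : (fun (x : ι → ℝ) k => a k ⬝ᵥ x) =
      (fun y => Matrix.toLin' Uᵀ y) ∘ (fun x m => a' m ⬝ᵥ x) := by
    funext x k
    simp only [Function.comp, Matrix.toLin'_apply, Matrix.mulVec]
    rw [hdot' k x]
    rfl
  have hdetU : |(Uᵀ).det| = 1 := by
    have h1 : (Uᵀ).det * (Uᵀ).det = 1 := by
      have := congrArg Matrix.det hU
      rwa [Matrix.det_mul, Matrix.det_one, ← Matrix.det_transpose U] at this
    rcases mul_self_eq_one_iff.1 h1 with h | h <;> rw [h] <;> norm_num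
  have hdet0 : (Uᵀ).det ≠ 0 := by
    intro h
    rw [h, abs_zero] at hdetU
    exact zero_ne_one hdetU
  have hlm : Measurable (fun y => Matrix.toLin' Uᵀ y) :=
    (LinearMap.continuous_on_pi _).measurable
  rw [hmap, ← Measure.map_map hlm (meas_dots a')]
  refine (Measure.map_mono hlaw hlm).trans ?_
  rw [Measure.map_smul]
  have h1 : Measure.map (fun y => Matrix.toLin' Uᵀ y) (volume : Measure (Fin (d + 1) → ℝ)) =
      volume := by
    have := Real.map_matrix_volume_pi_eq_smul_volume_pi hdet0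
    rw [abs_inv, hdetU, inv_one, ENNReal.ofReal_one, one_smul] at this
    exact this
  rw [h1]
  refine Measure.le_iff.2 fun s _ => ?_
  rw [Measure.smul_apply, Measure.smul_apply]
  exact mul_le_mul_left (ENNReal.ofReal_le_ofReal (by linarith)) _

end Pool.Agent.W63.SVD
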