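import Pool.Agent.W856.SV.Stms

/-!
SV-O1 and SV-O2 of helper856's project on MP_b26df8_pr: upper bounds for the expectation of `JJ`.
-/

set_option autoImplicit false

open MeasureTheory Matrix Set
open scoped ENNReal

namespace Pool.Agent.W63.SVO

open Pool.Agent.W856.SV

variable {ι : Type} [Fintype ι]

theorem meas_dot (v : ι → ℝ) : Measurable fun a : ι → ℝ => v ⬝ᵥ a := by
  unfold dotProduct
  fun_prop

/-- the weights of `bt` -/
noncomputable def w (lam : ι → ℝ) (k : ι) : ℝ := lam k * (1 - lam k / ∑ l, lam l)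

theorem w_nonneg {lam : ι → ℝ} (h : ∀ k, 0 ≤ lam k) (k : ι) : 0 ≤ w lam k := by
  refine mul_nonneg (h k) ?_
  have h1 : lam k ≤ ∑ l, lam l := Finset.single_le_sum (fun i _ => h i) (Finset.mem_univ k)
  have h2 : lam k / ∑ l, lam l ≤ 1 := div_le_one_of_le₀ h1 (Finset.sum_nonneg fun i _ => h i)
  linarith

theorem w_le {lam : ι → ℝ} (h : ∀ k, 0 ≤ lam k) (k : ι) : w lam k ≤ lam k := by
  have h1 : 0 ≤ lam k / ∑ l, lam l := div_nonneg (h k) (Finset.sum_nonneg fun i _ => h i)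
  unfold w
  nlinarith [h k]

theorem w_sum {lam : ι → ℝ} (h : ∀ k, 0 ≤ lam k) : ∑ k, w lam k = hs lam := by
  unfold w hs
  by_cases h0 : ∑ l, lam l = 0
  · have h1 : ∀ k, lam k = 0 := fun k =>
      (Finset.sum_eq_zero_iff_of_nonneg fun i _ => h i).1 h0 k (Finset.mem_univ k)
    simp [h1]
  · have h1 : ∀ k, lam k * (1 - lam k / ∑ l, lam l) = lam k - lam k ^ 2 / ∑ l, lam l := by
      intro k
      field_simp
    simp only [h1, Finset.sum_sub_distrib, ← Finset.sum_div]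
    field_simp

theorem bt_eq (u : ι → ι → ℝ) (lam : ι → ℝ) (R : ι → ℝ) :
    bt u lam R = ∑ k, w lam k * (u k ⬝ᵥ R) ^ 2 := rfl

theorem bt_le_bet {u : ι → ι → ℝ} {lam : ι → ℝ} (h : ∀ k, 0 ≤ lam k) (R : ι → ℝ) :
    bt u lam R ≤ bet u lam R :=
  Finset.sum_le_sum fun k _ => mul_le_mul_of_nonneg_right (w_le h k) (sq_nonneg _)

theorem bt_sub {u : ι → ι → ℝ} {lam : ι → ℝ} (h : ∀ k, 0 ≤ lam k) (a c : ι → ℝ) :
    bt u lam c ≤ 2 * bt u lam (a + c) + 2 * bt u lam a := by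
  rw [bt_eq, bt_eq, bt_eq, Finset.mul_sum, Finset.mul_sum, ← Finset.sum_add_distrib]
  refine Finset.sum_le_sum fun k _ => ?_
  have h1 : u k ⬝ᵥ (a + c) = u k ⬝ᵥ a + u k ⬝ᵥ c := dotProduct_add _ _ _
  rw [h1]
  have h2 : (u k ⬝ᵥ c) ^ 2 ≤ 2 * (u k ⬝ᵥ a + u k ⬝ᵥ c) ^ 2 + 2 * (u k ⬝ᵥ a) ^ 2 := by
    nlinarith [sq_nonneg (2 * (u k ⬝ᵥ a) + u k ⬝ᵥ c)]
  have h3 := mul_le_mul_of_nonneg_left h2 (w_nonneg h k)
  linarith

theorem bet_nonneg {u : ι → ι → ℝ} {lam : ι → ℝ} (h : ∀ k, 0 ≤ lam k) (R : ι → ℝ) :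
    0 ≤ bet u lam R := Finset.sum_nonneg fun k _ => mul_nonneg (h k) (sq_nonneg _)

theorem bt_nonneg {u : ι → ι → ℝ} {lam : ι → ℝ} (h : ∀ k, 0 ≤ lam k) (R : ι → ℝ) :
    0 ≤ bt u lam R := by
  rw [bt_eq]
  exact Finset.sum_nonneg fun k _ => mul_nonneg (w_nonneg h k) (sq_nonneg _)

theorem meas_bet (u : ι → ι → ℝ) (lam c : ι → ℝ) :
    Measurable fun a : ι → ℝ => bet u lam (a + c) := by
  unfold bet dotProduct
  simp only [Pi.add_apply]
  fun_prop

theorem hs_nonneg {lam : ι → ℝ} (h : ∀ k, 0 ≤ lam k) : 0 ≤ hs lam := by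
  rw [← w_sum h]
  exact Finset.sum_nonneg fun k _ => w_nonneg h k

theorem bt_pos_imp {u : ι → ι → ℝ} {lam : ι → ℝ} (h : ∀ k, 0 ≤ lam k) {c : ι → ℝ}
    (hb : 0 < bt u lam c) : 0 < hs lam := by
  rcases (hs_nonneg h).lt_or_eq with h1 | h1
  · exact h1
  · exfalso
    rw [← w_sum h] at h1
    have h2 : ∀ k, w lam k = 0 := fun k =>
      (Finset.sum_eq_zero_iff_of_nonneg fun i _ => w_nonneg h i).1 h1.symm k (Finset.mem_univ k)
    rw [bt_eq] at hb
    simp [h2] at hb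

/-- the conditional Chebyshev bound for `bt` -/
theorem cheb [DecidableEq ι] {μ : Measure ℝ} {C₃ : ℝ} {ν : ι → ℝ} {u : ι → ι → ℝ} {lam : ι → ℝ}
    (hR : RowData ν u lam)
    (hC : ∀ (v : ι → ℝ), v ⬝ᵥ ν = 0 → ∀ (m δ : ℝ), 0 ≤ δ →
      ∫⁻ a in {a | |ν ⬝ᵥ a + m| ≤ δ}, ENNReal.ofReal ((v ⬝ᵥ a) ^ 2) ∂(Pr μ ι) ≤
        ENNReal.ofReal (C₃ * δ * (v ⬝ᵥ v)))
    (hC0 : 0 < C₃) (m δ : ℝ) (hδ : 0 ≤ δ) :
    ∫⁻ a in {a | |ν ⬝ᵥ a + m| ≤ δ}, ENNReal.ofReal (bt u lam a) ∂(Pr μ ι) ≤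
      ENNReal.ofReal (C₃ * δ * hs lam) := by
  have h1 : ∀ a, ENNReal.ofReal (bt u lam a) =
      ∑ k, ENNReal.ofReal (w lam k) * ENNReal.ofReal ((u k ⬝ᵥ a) ^ 2) := by
    intro a
    rw [bt_eq, ENNReal.ofReal_sum_of_nonneg fun k _ =>
      mul_nonneg (w_nonneg hR.lam0 k) (sq_nonneg _)]
    exact Finset.sum_congr rfl fun k _ => ENNReal.ofReal_mul (w_nonneg hR.lam0 k)
  simp only [h1]
  rw [lintegral_finsetSum _ fun k _ =>
    (((meas_dot (u k)).pow_const 2).ennreal_ofReal.const_mul _)]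
  rw [← w_sum hR.lam0, Finset.mul_sum, ENNReal.ofReal_sum_of_nonneg fun k _ =>
    mul_nonneg (mul_nonneg hC0.le hδ) (w_nonneg hR.lam0 k)]
  refine Finset.sum_le_sum fun k _ => ?_
  rw [lintegral_const_mul' _ _ ENNReal.ofReal_ne_top]
  rcases (w_nonneg hR.lam0 k).lt_or_eq with hk | hk
  · have hlk : 0 < lam k := lt_of_lt_of_le hk (w_le hR.lam0 k)
    have h2 := hC (u k) (hR.perp k hlk) m δ hδ
    have h3 : u k ⬝ᵥ u k = 1 := by
      rw [hR.on k k, if_pos rfl]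
    rw [h3, mul_one] at h2
    calc _ ≤ ENNReal.ofReal (w lam k) * ENNReal.ofReal (C₃ * δ) := mul_le_mul_right h2 _
      _ = _ := by rw [← ENNReal.ofReal_mul hk.le, mul_comm]
  · rw [← hk]
    simp

/-- integration of the bounds -/
theorem int1 (hi : S_INT) (p : ℝ → ℝ≥0∞) (κ a b y₀ : ℝ) (hκ : 0 ≤ κ) (ha : 0 ≤ a) (hb : 0 ≤ b)
    (hy₀ : 0 < y₀) (S : Set ℝ) (hS : MeasurableSet S) (hS1 : S ⊆ Ioi y₀)
    (hp : ∀ y ∈ S, p y ≤ ENNReal.ofReal (κ * y * min a (b * y ^ 2))) :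
    ∫⁻ y in S, ENNReal.ofReal (2 / y ^ 3) * p y ≤
      ENNReal.ofReal (κ * (4 * Real.sqrt (a * b))) := by
  have h1 : ∀ y ∈ S, ENNReal.ofReal (2 / y ^ 3) * p y ≤
      ENNReal.ofReal κ * ENNReal.ofReal (2 / y ^ 2 * min a (b * y ^ 2)) := by
    intro y hy
    have hy0 : 0 < y := hy₀.trans (hS1 hy)
    calc _ ≤ ENNReal.ofReal (2 / y ^ 3) * ENNReal.ofReal (κ * y * min a (b * y ^ 2)) :=
          mul_le_mul_right (hp y hy) _
      _ = _ := by
        rw [← ENNReal.ofReal_mul (by positivity), ← ENNReal.ofReal_mul hκ]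
        congr 1
        field_simp
  calc _ ≤ ∫⁻ y in S, ENNReal.ofReal κ * ENNReal.ofReal (2 / y ^ 2 * min a (b * y ^ 2)) :=
        setLIntegral_mono' hS h1
    _ = ENNReal.ofReal κ * ∫⁻ y in S, ENNReal.ofReal (2 / y ^ 2 * min a (b * y ^ 2)) :=
        lintegral_const_mul' _ _ ENNReal.ofReal_ne_top
    _ ≤ ENNReal.ofReal κ * ∫⁻ y in Ioi (0 : ℝ), ENNReal.ofReal (2 / y ^ 2 * min a (b * y ^ 2)) :=
        mul_le_mul_right (lintegral_mono_set (hS1.trans (Ioi_subset_Ioi hy₀.le))) _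
    _ ≤ ENNReal.ofReal κ * ENNReal.ofReal (4 * Real.sqrt (a * b)) :=
        mul_le_mul_right (hi a b 1 ha hb one_pos).1 _
    _ = _ := by rw [← ENNReal.ofReal_mul hκ]

theorem int2 (hi : S_INT) (p : ℝ → ℝ≥0∞) (κ y₀ : ℝ) (hκ : 0 ≤ κ)
    (hy₀ : 0 < y₀) (S : Set ℝ) (hS : MeasurableSet S) (hS1 : S ⊆ Ioi y₀)
    (hp : ∀ y ∈ S, p y ≤ ENNReal.ofReal (κ * y)) :
    ∫⁻ y in S, ENNReal.ofReal (2 / y ^ 3) * p y ≤ ENNReal.ofReal (κ * (2 / y₀)) := by
  have h1 : ∀ y ∈ S, ENNReal.ofReal (2 / y ^ 3) * p y ≤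
      ENNReal.ofReal κ * ENNReal.ofReal (2 / y ^ 2) := by
    intro y hy
    have hy0 : 0 < y := hy₀.trans (hS1 hy)
    calc _ ≤ ENNReal.ofReal (2 / y ^ 3) * ENNReal.ofReal (κ * y) :=
          mul_le_mul_right (hp y hy) _
      _ = _ := by
        rw [← ENNReal.ofReal_mul (by positivity), ← ENNReal.ofReal_mul hκ]
        congr 1
        field_simp
  calc _ ≤ ∫⁻ y in S, ENNReal.ofReal κ * ENNReal.ofReal (2 / y ^ 2) :=
        setLIntegral_mono' hS h1
    _ = ENNReal.ofReal κ * ∫⁻ y in S, ENNReal.ofReal (2 / y ^ 2) :=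
        lintegral_const_mul' _ _ ENNReal.ofReal_ne_top
    _ ≤ ENNReal.ofReal κ * ∫⁻ y in Ioi y₀, ENNReal.ofReal (2 / y ^ 2) :=
        mul_le_mul_right (lintegral_mono_set hS1) _
    _ ≤ ENNReal.ofReal κ * ENNReal.ofReal (2 / y₀) :=
        mul_le_mul_right (hi 0 0 y₀ le_rfl le_rfl hy₀).2 _
    _ = _ := by rw [← ENNReal.ofReal_mul hκ]

theorem prob_Pr {μ : Measure ℝ} {K : ℝ} (h : Nice μ K) (ι : Type) [Fintype ι] :
    IsProbabilityMeasure (Pr μ ι) := by
  have := h.prob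
  unfold Pr
  infer_instance

theorem t_O1 (hs' : S_SB) (hc : S_CHB) (hb : S_SBB) (hl : S_CAL) (hi : S_INT) : S_O1 := by
  intro μ K hμ
  obtain ⟨C₁, hC₁, h1, -, -⟩ := hs' μ K hμ
  obtain ⟨C₂, hC₂, h2⟩ := hb μ K hμ
  obtain ⟨C₃, hC₃, h3⟩ := hc μ K hμ
  set Cm : ℝ := C₁ + C₂ + C₃ with hCm
  have hCm0 : 0 < Cm := by positivity
  refine ⟨36 * Cm, by positivity, ?_⟩
  intro ι _ _ ν u lam hR c h hh
  have := prob_Pr hμ ι
  set X := Real.sqrt (hs lam) with hX
  set b := Real.sqrt (bt u lam c) with hbdef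
  have hX0 : 0 ≤ X := Real.sqrt_nonneg _
  have hb0 : 0 ≤ b := Real.sqrt_nonneg _
  have hD : Measurable fun a : ι → ℝ => ν ⬝ᵥ (a + c) := by
    simp only [dotProduct_add]
    exact (meas_dot ν).add_const _
  set p : ℝ → ℝ≥0∞ := fun y =>
    Pr μ ι {a | |ν ⬝ᵥ (a + c)| ≤ y / h ∧ bet u lam (a + c) ≤ y ^ 2} with hp
  have hI := hl (ι → ℝ) (Pr μ ι) this (fun a => bet u lam (a + c)) (fun a => ν ⬝ᵥ (a + c)) h
    (meas_bet u lam c) hD (fun a => bet_nonneg hR.lam0 _) hh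
  change ∫⁻ a, ENNReal.ofReal (1 / max (1 + bet u lam (a + c)) ((ν ⬝ᵥ (a + c)) ^ 2 * h ^ 2))
    ∂(Pr μ ι) ≤ _
  refine hI.trans ?_
  -- the three bounds
  have p1 : ∀ y, 0 < y → p y ≤ ENNReal.ofReal (Cm / h * y) := by
    intro y hy
    have e1 := h1 ι ν (ν ⬝ᵥ c) (y / h) (by rw [hR.nu1]; exact one_pos) (by positivity)
    rw [hR.nu1, Real.sqrt_one, div_one] at e1
    refine (measure_mono ?_).trans (e1.trans (ENNReal.ofReal_le_ofReal ?_))
    · intro a ha
      have := ha.1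
      rwa [dotProduct_add] at this
    · have : C₁ ≤ Cm := by linarith
      calc C₁ * (y / h) ≤ Cm * (y / h) := mul_le_mul_of_nonneg_right this (by positivity)
        _ = _ := by ring
  have p2 : 0 < hs lam → ∀ y, 0 < y → p y ≤ ENNReal.ofReal (Cm / h * y * (1 / hs lam * y ^ 2)) := by
    intro hlam y hy
    have e1 := h2 ι ν u lam hR hlam c (y / h) y (by positivity) hy.le
    refine e1.trans (ENNReal.ofReal_le_ofReal ?_)
    have : C₂ ≤ Cm := by linarith
    calc C₂ * (y / h) * (y ^ 2 / hs lam) ≤ Cm * (y / h) * (y ^ 2 / hs lam) := by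
          have e2 : 0 ≤ y / h := by positivity
          have e3 : 0 ≤ y ^ 2 / hs lam := by positivity
          exact mul_le_mul_of_nonneg_right (mul_le_mul_of_nonneg_right this e2) e3
      _ = _ := by ring
  have p3 : 0 < b → ∀ y, 0 < y → y ≤ b / 2 →
      p y ≤ ENNReal.ofReal (Cm / h * y * (4 * hs lam / b ^ 2)) := by
    intro hbpos y hy hyb
    have hbt : bt u lam c = b ^ 2 := (Real.sq_sqrt (bt_nonneg hR.lam0 c)).symm
    have e1 := cheb (μ := μ) (C₃ := C₃) hR (fun v hv m δ hδ => h3 ι ν v hR.nu1 hv m δ hδ) hC₃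
      (ν ⬝ᵥ c) (y / h) (by positivity)
    have e2 := mul_meas_ge_le_lintegral₀ (μ := (Pr μ ι).restrict {a | |ν ⬝ᵥ a + ν ⬝ᵥ c| ≤ y / h})
      (f := fun a => ENNReal.ofReal (bt u lam a)) (by
        refine (Measurable.ennreal_ofReal ?_).aemeasurable
        unfold bt dotProduct
        fun_prop) (ENNReal.ofReal (b ^ 2 / 4))
    have e3 := e2.trans e1
    have hms : MeasurableSet {a : ι → ℝ | |ν ⬝ᵥ a + ν ⬝ᵥ c| ≤ y / h} :=
      measurableSet_le (((meas_dot ν).add_const _).abs) measurable_const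
    have e4 : p y ≤ (Pr μ ι).restrict {a | |ν ⬝ᵥ a + ν ⬝ᵥ c| ≤ y / h}
        {a | ENNReal.ofReal (b ^ 2 / 4) ≤ ENNReal.ofReal (bt u lam a)} := by
      rw [Measure.restrict_apply' hms]
      refine measure_mono ?_
      rintro a ⟨ha1, ha2⟩
      refine ⟨ENNReal.ofReal_le_ofReal ?_, ?_⟩
      · have e5 := bt_sub (u := u) hR.lam0 a c
        have e6 := bt_le_bet (u := u) hR.lam0 (a + c)
        have e7 : y ^ 2 ≤ (b / 2) ^ 2 := pow_le_pow_left₀ hy.le hyb 2
        nlinarith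
      · simp only [mem_ofPred_eq]
        rwa [dotProduct_add] at ha1
    have hb4 : 0 < b ^ 2 / 4 := by positivity
    have e5 : ENNReal.ofReal (b ^ 2 / 4) * p y ≤ ENNReal.ofReal (C₃ * (y / h) * hs lam) :=
      (mul_le_mul_right e4 _).trans e3
    have e6 : p y ≤ ENNReal.ofReal (C₃ * (y / h) * hs lam) / ENNReal.ofReal (b ^ 2 / 4) := by
      rw [ENNReal.le_div_iff_mul_le (Or.inl (by simpa using hb4))
        (Or.inl ENNReal.ofReal_ne_top), mul_comm]
      exact e5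
    refine e6.trans ?_
    rw [← ENNReal.ofReal_div_of_pos hb4]
    refine ENNReal.ofReal_le_ofReal ?_
    have hC : C₃ ≤ Cm := by linarith
    have hhs := hs_nonneg hR.lam0
    calc C₃ * (y / h) * hs lam / (b ^ 2 / 4) = C₃ * (y / h * hs lam / (b ^ 2 / 4)) := by ring
      _ ≤ Cm * (y / h * hs lam / (b ^ 2 / 4)) :=
          mul_le_mul_of_nonneg_right hC (by positivity)
      _ = _ := by field_simp
  have hκ : 0 ≤ Cm / h := by positivity
  -- integrals
  have i1 : ∫⁻ y in Ioi (1 : ℝ), ENNReal.ofReal (2 / y ^ 3) * p y ≤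
      ENNReal.ofReal (Cm / h * (2 / 1)) :=
    int2 hi p (Cm / h) 1 hκ one_pos _ measurableSet_Ioi Subset.rfl
      fun y hy => p1 y (one_pos.trans hy)
  have i2 : 0 < X → ∫⁻ y in Ioi (1 : ℝ), ENNReal.ofReal (2 / y ^ 3) * p y ≤
      ENNReal.ofReal (Cm / h * (4 / X)) := by
    intro hXpos
    have hlam : 0 < hs lam := Real.sqrt_pos.1 hXpos
    have e1 := int1 hi p (Cm / h) 1 (1 / hs lam) 1 hκ zero_le_one (by positivity) one_pos
      (Ioi 1) measurableSet_Ioi Subset.rfl (fun y hy => by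
        have hy0 : 0 < y := one_pos.trans hy
        rcases le_total 1 (1 / hs lam * y ^ 2) with e | e
        · rw [min_eq_left e, mul_one]
          exact p1 y hy0
        · rw [min_eq_right e]
          exact p2 hlam y hy0)
    rw [one_mul, Real.sqrt_div zero_le_one, Real.sqrt_one, mul_one_div] at e1
    exact e1
  have i3 : 0 < b → ∫⁻ y in Ioi (1 : ℝ), ENNReal.ofReal (2 / y ^ 3) * p y ≤
      ENNReal.ofReal (Cm / h * (12 / b)) := by
    intro hbpos
    have hlam : 0 < hs lam := bt_pos_imp hR.lam0 (Real.sqrt_pos.1 hbpos)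
    have e0 : ∫⁻ y in Ioi (1 : ℝ), ENNReal.ofReal (2 / y ^ 3) * p y ≤
        (∫⁻ y in (Ioi (1 : ℝ) ∩ Iic (b / 2)), ENNReal.ofReal (2 / y ^ 3) * p y) +
        ∫⁻ y in (Ioi (1 : ℝ) ∩ Ioi (b / 2)), ENNReal.ofReal (2 / y ^ 3) * p y := by
      refine (lintegral_mono_set ?_).trans (lintegral_union_le _ _ _)
      intro y hy
      rcases le_or_gt y (b / 2) with e | e
      · exact Or.inl ⟨hy, e⟩
      · exact Or.inr ⟨hy, e⟩
    have e1 := int1 hi p (Cm / h) (4 * hs lam / b ^ 2) (1 / hs lam) 1 hκ (by positivity)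
      (by positivity) one_pos (Ioi 1 ∩ Iic (b / 2)) (measurableSet_Ioi.inter measurableSet_Iic)
      inter_subset_left (fun y hy => by
        have hy0 : 0 < y := one_pos.trans hy.1
        rcases le_total (4 * hs lam / b ^ 2) (1 / hs lam * y ^ 2) with e | e
        · rw [min_eq_left e]
          exact p3 hbpos y hy0 hy.2
        · rw [min_eq_right e]
          exact p2 hlam y hy0)
    have e2 := int2 hi p (Cm / h) (b / 2) hκ (by positivity) (Ioi 1 ∩ Ioi (b / 2))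
      (measurableSet_Ioi.inter measurableSet_Ioi) inter_subset_right (fun y hy =>
        p1 y (one_pos.trans hy.1))
    refine e0.trans ((add_le_add e1 e2).trans_eq ?_)
    rw [← ENNReal.ofReal_add (by positivity) (by positivity)]
    congr 1
    have e3 : 4 * hs lam / b ^ 2 * (1 / hs lam) = (2 / b) ^ 2 := by
      field_simp
      norm_num
    rw [e3, Real.sqrt_sq (by positivity)]
    field_simp
    norm_num
  -- combination
  have key : ∀ Z : ℝ, 0 < Z → 1 + X + b ≤ 3 * Z → ∀ q : ℝ, q ≤ 12 / Z →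
      ENNReal.ofReal (Cm / h * q) ≤ ENNReal.ofReal (36 * Cm / (h * (1 + X + b))) := by
    intro Z hZ hZ2 q hq
    refine ENNReal.ofReal_le_ofReal ?_
    have e1 : 12 / Z ≤ 36 / (1 + X + b) := by
      rw [div_le_div_iff₀ hZ (by positivity)]
      linarith
    calc Cm / h * q ≤ Cm / h * (36 / (1 + X + b)) :=
          mul_le_mul_of_nonneg_left (hq.trans e1) hκ
      _ = _ := by field_simp
  rcases le_total X 1 with hX1 | hX1
  · rcases le_total b 1 with hb1 | hb1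
    · exact i1.trans (key 1 one_pos (by linarith) _ (by norm_num))
    · exact (i3 (by linarith)).trans (key b (by linarith) (by linarith) _ le_rfl)
  · rcases le_total b X with hb1 | hb1
    · refine (i2 (by linarith)).trans (key X (by linarith) (by linarith) _ ?_)
      exact div_le_div_of_nonneg_right (by norm_num) (by linarith)
    · exact (i3 (by linarith)).trans (key b (by linarith) (by linarith) _ le_rfl)

theorem exists_theta {ν : ι → ℝ} {m H : ℝ} (hν : ν ⬝ᵥ ν = 1) (hH : 0 < H)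
    (hbad : ¬ ∃ j, Bad ν m H j) : ∃ θ : ℝ, 0 < θ ∧ θ ≤ 1 ∧ (∀ j, ν j ^ 2 ≤ 1 - θ ^ 2) ∧
      (θ = 1 / 2 ∨ Real.sqrt H ≤ θ * |m|) := by
  classical
  by_cases hall : ∀ j, ν j ^ 2 ≤ 3 / 4
  · exact ⟨1 / 2, by norm_num, by norm_num, fun j => (hall j).trans_eq (by norm_num), Or.inl rfl⟩
  · obtain ⟨j, hj⟩ := not_forall.1 hall
    rw [not_le] at hj
    have hsum : ∑ k, ν k ^ 2 = 1 := by
      rw [← hν]
      exact Finset.sum_congr rfl fun k _ => pow_two _
    have hj1 : ν j ^ 2 ≤ 1 := by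
      rw [← hsum]
      exact Finset.single_le_sum (f := fun k => ν k ^ 2) (fun _ _ => sq_nonneg _)
        (Finset.mem_univ j)
    have h1 : H ≤ (1 - ν j ^ 2) * m ^ 2 := by
      by_contra hcon
      exact hbad ⟨j, hj, not_le.1 hcon⟩
    have h2 : 0 < 1 - ν j ^ 2 := by
      by_contra hcon
      have h3 : (1 - ν j ^ 2) * m ^ 2 ≤ 0 :=
        mul_nonpos_of_nonpos_of_nonneg (not_lt.1 hcon) (sq_nonneg m)
      linarith
    refine ⟨Real.sqrt (1 - ν j ^ 2), Real.sqrt_pos.2 h2, ?_, ?_, Or.inr ?_⟩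
    · rw [Real.sqrt_le_one]
      nlinarith [sq_nonneg (ν j)]
    · intro k
      rw [Real.sq_sqrt h2.le]
      by_cases hk : k = j
      · rw [hk]
        linarith
      · have h3 : ν j ^ 2 + ν k ^ 2 ≤ 1 := by
          rw [← hsum, ← Finset.sum_pair (Ne.symm hk) (f := fun k => ν k ^ 2)]
          exact Finset.sum_le_sum_of_subset_of_nonneg (Finset.subset_univ _)
            fun _ _ _ => sq_nonneg _
        linarith
    · rw [← Real.sqrt_sq_eq_abs, ← Real.sqrt_mul h2.le]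
      exact Real.sqrt_le_sqrt h1

theorem t_O2 (hf : S_FAR) (hb : S_SBB) (hn : S_SBN) (hl : S_CAL) (hi : S_INT) : S_O2 := by
  intro μ K hμ
  obtain ⟨C₁, hC₁, h1⟩ := hf μ K hμ
  obtain ⟨C₂, hC₂, h2⟩ := hb μ K hμ
  obtain ⟨C₃, hC₃, h3⟩ := hn μ K hμ
  set Cm : ℝ := C₁ + C₂ + C₃ + 1 with hCm
  have hCm0 : 0 < Cm := by positivity
  refine ⟨10 * Cm, by positivity, ?_⟩
  intro ι _ _ ν u lam hR c h hh hm1 hlam hbad
  have := prob_Pr hμ ι
  obtain ⟨θ, hθ0, hθ1, hθν, hθ2⟩ := exists_theta hR.nu1 hlam hbad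
  set X := Real.sqrt (hs lam) with hX
  have hX0 : 0 < X := Real.sqrt_pos.2 hlam
  have hXsq : X ^ 2 = hs lam := Real.sq_sqrt hlam.le
  set m : ℝ := ν ⬝ᵥ c with hm
  have hm0 : 0 < |m| := one_pos.trans_le hm1
  have hmne : m ≠ 0 := abs_pos.1 hm0
  have hD : Measurable fun a : ι → ℝ => ν ⬝ᵥ (a + c) := by
    simp only [dotProduct_add]
    exact (meas_dot ν).add_const _
  set p : ℝ → ℝ≥0∞ := fun y =>
    Pr μ ι {a | |ν ⬝ᵥ (a + c)| ≤ y / h ∧ bet u lam (a + c) ≤ y ^ 2} with hp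
  have hI := hl (ι → ℝ) (Pr μ ι) this (fun a => bet u lam (a + c)) (fun a => ν ⬝ᵥ (a + c)) h
    (meas_bet u lam c) hD (fun a => bet_nonneg hR.lam0 _) hh
  change ∫⁻ a, ENNReal.ofReal (1 / max (1 + bet u lam (a + c)) ((ν ⬝ᵥ (a + c)) ^ 2 * h ^ 2))
    ∂(Pr μ ι) ≤ _
  refine hI.trans ?_
  set F : ℝ := 1 / (θ * m ^ 2) with hF
  have hF0 : 0 < F := by positivity
  have hκ : 0 ≤ Cm / h := by positivity
  have p1 : ∀ y, 0 < y → y ≤ |m| * h / 2 → p y ≤ ENNReal.ofReal (Cm / h * y * F) := by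
    intro y hy hy2
    have e0 : 2 * (y / h) ≤ |m| := by
      rw [mul_div_assoc', div_le_iff₀ hh]
      linarith
    have e1 := h1 ι ν hR.nu1 θ m (y / h) hθ0 hθ1 hθν hmne (by positivity) e0
    refine (measure_mono ?_).trans (e1.trans (ENNReal.ofReal_le_ofReal ?_))
    · intro a ha
      have := ha.1
      rwa [dotProduct_add] at this
    · have : C₁ ≤ Cm := by linarith
      calc C₁ * (y / h) / (θ * m ^ 2) = C₁ * (y / h / (θ * m ^ 2)) := by ring
        _ ≤ Cm * (y / h / (θ * m ^ 2)) := mul_le_mul_of_nonneg_right this (by positivity)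
        _ = _ := by
          rw [hF]
          ring
  have p2 : ∀ y, 0 < y → p y ≤ ENNReal.ofReal (Cm / h * y * (1 / hs lam * y ^ 2)) := by
    intro y hy
    have e1 := h2 ι ν u lam hR hlam c (y / h) y (by positivity) hy.le
    refine e1.trans (ENNReal.ofReal_le_ofReal ?_)
    have : C₂ ≤ Cm := by linarith
    calc C₂ * (y / h) * (y ^ 2 / hs lam) ≤ Cm * (y / h) * (y ^ 2 / hs lam) := by
          have e2 : 0 ≤ y / h := by positivity
          have e3 : 0 ≤ y ^ 2 / hs lam := by positivity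
          exact mul_le_mul_of_nonneg_right (mul_le_mul_of_nonneg_right this e2) e3
      _ = _ := by ring
  have p3 : ∀ y, 0 < y → p y ≤ ENNReal.ofReal (Cm / X * y) := by
    intro y hy
    rcases le_total X y with e | e
    · have e1 : p y ≤ 1 := prob_le_one
      refine e1.trans ?_
      rw [← ENNReal.ofReal_one]
      refine ENNReal.ofReal_le_ofReal ?_
      rw [div_mul_eq_mul_div, le_div_iff₀ hX0, one_mul]
      have : 1 ≤ Cm := by linarith
      nlinarith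
    · have e1 := h3 ι u lam hR.on hR.lam0 hlam c y hy.le
      refine (measure_mono fun a ha => ha.2).trans (e1.trans (ENNReal.ofReal_le_ofReal ?_))
      have : C₃ ≤ Cm := by linarith
      rw [← hXsq]
      have e2 : y ^ 2 / X ^ 2 ≤ y / X := by
        rw [div_le_div_iff₀ (by positivity) hX0]
        nlinarith [mul_pos hy hX0, mul_nonneg (mul_pos hy hX0).le (sub_nonneg.2 e)]
      calc C₃ * (y ^ 2 / X ^ 2) ≤ Cm * (y / X) :=
            mul_le_mul this e2 (by positivity) hCm0.le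
        _ = _ := by ring
  have e0 : ∫⁻ y in Ioi (1 : ℝ), ENNReal.ofReal (2 / y ^ 3) * p y ≤
      (∫⁻ y in (Ioi (1 : ℝ) ∩ Iic (|m| * h / 2)), ENNReal.ofReal (2 / y ^ 3) * p y) +
      ∫⁻ y in (Ioi (1 : ℝ) ∩ Ioi (|m| * h / 2)), ENNReal.ofReal (2 / y ^ 3) * p y := by
    refine (lintegral_mono_set ?_).trans (lintegral_union_le _ _ _)
    intro y hy
    rcases le_or_gt y (|m| * h / 2) with e | e
    · exact Or.inl ⟨hy, e⟩
    · exact Or.inr ⟨hy, e⟩
  have e1 : ∫⁻ y in (Ioi (1 : ℝ) ∩ Iic (|m| * h / 2)), ENNReal.ofReal (2 / y ^ 3) * p y ≤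
      ENNReal.ofReal (Cm / h * (6 / (|m| * X))) := by
    rcases hθ2 with e | e
    · have e2 := int1 hi p (Cm / h) F (1 / hs lam) 1 hκ hF0.le (by positivity) one_pos
        (Ioi 1 ∩ Iic (|m| * h / 2)) (measurableSet_Ioi.inter measurableSet_Iic)
        inter_subset_left (fun y hy => by
          have hy0 : 0 < y := one_pos.trans hy.1
          rcases le_total F (1 / hs lam * y ^ 2) with e | e
          · rw [min_eq_left e]
            exact p1 y hy0 hy.2
          · rw [min_eq_right e]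
            exact p2 y hy0)
      refine e2.trans (ENNReal.ofReal_le_ofReal (mul_le_mul_of_nonneg_left ?_ hκ))
      have e3 : Real.sqrt (F * (1 / hs lam)) ≤ 3 / 2 / (|m| * X) := by
        rw [Real.sqrt_le_left (by positivity), div_pow, mul_pow, sq_abs, hXsq, hF, e]
        rw [div_mul_div_comm, div_le_div_iff₀ (by positivity) (by positivity)]
        have : 0 < m ^ 2 * hs lam := by positivity
        nlinarith
      calc 4 * Real.sqrt (F * (1 / hs lam)) ≤ 4 * (3 / 2 / (|m| * X)) :=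
            mul_le_mul_of_nonneg_left e3 (by norm_num)
        _ = _ := by ring
    · have e2 := int2 hi p (Cm / h * F) 1 (by positivity) one_pos
        (Ioi 1 ∩ Iic (|m| * h / 2)) (measurableSet_Ioi.inter measurableSet_Iic)
        inter_subset_left (fun y hy => by
          have := p1 y (one_pos.trans hy.1) hy.2
          rwa [mul_right_comm] at this)
      refine e2.trans (ENNReal.ofReal_le_ofReal ?_)
      rw [mul_assoc]
      refine mul_le_mul_of_nonneg_left ?_ hκ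
      have e3 : F ≤ 1 / (|m| * X) := by
        rw [hF]
        refine one_div_le_one_div_of_le (by positivity) ?_
        calc |m| * X ≤ |m| * (θ * |m|) := mul_le_mul_of_nonneg_left e hm0.le
          _ = θ * |m| ^ 2 := by ring
          _ = _ := by rw [sq_abs]
      have e4 : 0 < 1 / (|m| * X) := by positivity
      calc F * (2 / 1) ≤ 1 / (|m| * X) * (2 / 1) := mul_le_mul_of_nonneg_right e3 (by norm_num)
        _ ≤ 6 * (1 / (|m| * X)) := by linarith
        _ = _ := by ring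
  have e2 := int2 hi p (Cm / X) (|m| * h / 2) (by positivity) (by positivity)
    (Ioi 1 ∩ Ioi (|m| * h / 2)) (measurableSet_Ioi.inter measurableSet_Ioi) inter_subset_right
    (fun y hy => p3 y (one_pos.trans hy.1))
  refine e0.trans ((add_le_add e1 e2).trans_eq ?_)
  rw [← ENNReal.ofReal_add (by positivity) (by positivity)]
  congr 1
  field_simp
  norm_num

end Pool.Agent.W63.SVO
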